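import Mathlib
import Pool.Agent.H73.G.R8.Y685.Hol2

/-!
# Bivariate polynomials: evaluation, derivatives, growth
-/

set_option autoImplicit false

open Polynomial Filter
open scoped Topology

namespace Pool.Agent.Y119.PG

variable {C : IntermediateField ℚ ℂ}

/-- evaluation -/
noncomputable def ε (g θ : ℂ) : C[X][X] →+* ℂ :=
  eval₂RingHom ((aeval g : C[X] →ₐ[C] ℂ) : C[X] →+* ℂ) θ

lemma ε_C (g θ : ℂ) (a : C[X]) : ε g θ (Polynomial.C a) = aeval g a := by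
  simp [ε]

lemma ε_X (g θ : ℂ) : ε (C := C) g θ X = θ := by
  simp [ε]

lemma ε_monomial (g θ : ℂ) (n : ℕ) (a : C[X]) : ε g θ (monomial n a) = aeval g a * θ ^ n := by
  rw [← Polynomial.C_mul_X_pow_eq_monomial, map_mul, map_pow, ε_C, ε_X]

lemma der_aeval (D : Derivation ℚ ℂ ℂ) (hC : ∀ c ∈ C, D c = 0) (g : ℂ) (a : C[X]) :
    D (aeval g a) = aeval g (derivative a) * D g := by
  induction a using Polynomial.induction_on' with
  | add p q hp hq => rw [map_add, map_add, hp, hq, derivative_add, map_add]; ring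
  | monomial n c =>
    rw [aeval_monomial, derivative_monomial, aeval_monomial, D.leibniz, D.leibniz_pow]
    have h1 : D (algebraMap C ℂ c) = 0 := hC _ c.2
    rw [h1, map_mul, map_natCast]
    simp only [smul_eq_mul, nsmul_eq_mul]
    ring

lemma hasDeriv_aeval {g : ℂ → ℂ} {g' t₁ : ℂ} (hg : HasDerivAt g g' t₁) (a : C[X]) :
    HasDerivAt (fun t => aeval (g t) a) (aeval (g t₁) (derivative a) * g') t₁ :=
  HasDerivAt.comp t₁ (h₂ := fun z => aeval z a) (h := g) (a.hasDerivAt_aeval (g t₁)) hg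

theorem exists_NX (N : C[X][X]) : ∃ N' : C[X][X],
    (∀ (D : Derivation ℚ ℂ ℂ), (∀ c ∈ C, D c = 0) → ∀ g θ : ℂ,
      D (ε g θ N) = ε g θ N' * D g + ε g θ (derivative N) * D θ) ∧
    (∀ (g φ : ℂ → ℂ) (t₁ g' φ' : ℂ), HasDerivAt g g' t₁ → HasDerivAt φ φ' t₁ →
      HasDerivAt (fun t => ε (g t) (φ t) N)
        (ε (g t₁) (φ t₁) N' * g' + ε (g t₁) (φ t₁) (derivative N) * φ') t₁) := by
  induction N using Polynomial.induction_on' with
  | add p q hp hq =>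
    obtain ⟨p', hp1, hp2⟩ := hp
    obtain ⟨q', hq1, hq2⟩ := hq
    refine ⟨p' + q', fun D hD g θ => ?_, fun g φ t₁ g' φ' h1 h2 => ?_⟩
    · rw [map_add, map_add, hp1 D hD, hq1 D hD, map_add, derivative_add, map_add]; ring
    · simp only [map_add]
      refine ((hp2 g φ t₁ g' φ' h1 h2).add (hq2 g φ t₁ g' φ' h1 h2)).congr_deriv ?_
      ring
  | monomial n a =>
    refine ⟨monomial n (derivative a), fun D hD g θ => ?_, fun g φ t₁ g' φ' h1 h2 => ?_⟩
    · rw [ε_monomial, ε_monomial, derivative_monomial, ε_monomial, D.leibniz, D.leibniz_pow,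
        der_aeval D hD, map_mul, map_natCast]
      simp only [smul_eq_mul, nsmul_eq_mul]
      ring
    · simp only [ε_monomial, derivative_monomial]
      refine ((hasDeriv_aeval h1 a).mul (h2.pow n)).congr_deriv ?_
      rw [map_mul, map_natCast, Pi.pow_apply]
      ring

lemma ε_cont (N : C[X][X]) : Continuous fun r : ℂ × ℂ => ε r.1 r.2 N := by
  induction N using Polynomial.induction_on' with
  | add p q hp hq => simp only [map_add]; exact hp.add hq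
  | monomial n a =>
    simp only [ε_monomial]
    exact ((a.continuous_aeval).comp continuous_fst).mul (continuous_snd.pow n)

lemma ε_SH (N : C[X][X]) (p : ℂ × ℂ) : Pool.Agent.Y685.H2.SH (fun g θ => ε g θ N) p := by
  obtain ⟨N', _, h⟩ := exists_NX N
  refine Eventually.of_forall fun q => ⟨(ε_cont N).continuousAt, ?_, ?_⟩
  · exact (h (fun t => t) (fun _ => q.2) q.1 1 0 (hasDerivAt_id _) (hasDerivAt_const _ _)).differentiableAt
  · exact (h (fun _ => q.1) (fun t => t) q.2 0 1 (hasDerivAt_const _ _) (hasDerivAt_id _)).differentiableAt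

lemma ε_deriv2 (N : C[X][X]) (g θ : ℂ) : deriv (fun z => ε g z N) θ = ε g θ (derivative N) := by
  obtain ⟨N', _, h⟩ := exists_NX N
  rw [(h (fun _ => g) (fun t => t) θ 0 1 (hasDerivAt_const _ _) (hasDerivAt_id _)).deriv]
  simp

lemma ε_an {g φ : ℂ → ℂ} {t₁ : ℂ} (hg : AnalyticAt ℂ g t₁) (hφ : AnalyticAt ℂ φ t₁)
    (N : C[X][X]) : AnalyticAt ℂ (fun t => ε (g t) (φ t) N) t₁ := by
  obtain ⟨N', _, h⟩ := exists_NX N
  rw [Complex.analyticAt_iff_eventually_differentiableAt]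
  filter_upwards [hg.eventually_analyticAt, hφ.eventually_analyticAt] with t h1 h2
  exact (h g φ t _ _ h1.differentiableAt.hasDerivAt h2.differentiableAt.hasDerivAt).differentiableAt

/-- growth of univariate polynomials -/
lemma bd1 (a : C[X]) : ∃ (K : ℝ) (m : ℕ), 0 ≤ K ∧ ∀ g : ℂ, ‖aeval g a‖ ≤ K * (1 + ‖g‖) ^ m := by
  induction a using Polynomial.induction_on' with
  | add p q hp hq =>
    obtain ⟨K, m, hK, h⟩ := hp
    obtain ⟨K', m', hK', h'⟩ := hq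
    refine ⟨K + K', m + m', by positivity, fun g => ?_⟩
    have h1 : 1 ≤ 1 + ‖g‖ := by linarith [norm_nonneg g]
    have e1 : (1 + ‖g‖) ^ m ≤ (1 + ‖g‖) ^ (m + m') := pow_le_pow_right₀ h1 (by omega)
    have e2 : (1 + ‖g‖) ^ m' ≤ (1 + ‖g‖) ^ (m + m') := pow_le_pow_right₀ h1 (by omega)
    rw [map_add]
    calc _ ≤ ‖aeval g p‖ + ‖aeval g q‖ := norm_add_le _ _
      _ ≤ K * (1 + ‖g‖) ^ (m + m') + K' * (1 + ‖g‖) ^ (m + m') :=
        add_le_add ((h g).trans (by gcongr)) ((h' g).trans (by gcongr))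
      _ = _ := by ring
  | monomial n c =>
    refine ⟨‖(c : ℂ)‖, n, norm_nonneg _, fun g => ?_⟩
    rw [aeval_monomial, norm_mul, norm_pow]
    refine mul_le_mul_of_nonneg_left ?_ (norm_nonneg _)
    exact pow_le_pow_left₀ (norm_nonneg _) (by linarith [norm_nonneg g]) n

/-- roots of monic polynomials -/
lemma root_bd (Q : C[X][X]) (hQ : Q.Monic) : ∃ (K : ℝ) (m : ℕ), 1 ≤ K ∧ ∀ g θ : ℂ,
    ε g θ Q = 0 → ‖θ‖ ≤ K * (1 + ‖g‖) ^ m := by
  choose K m hK h using fun i => bd1 (C := C) (Q.coeff i)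
  refine ⟨1 + ∑ i ∈ Finset.range Q.natDegree, K i, ∑ i ∈ Finset.range Q.natDegree, m i, by
    have : 0 ≤ ∑ i ∈ Finset.range Q.natDegree, K i := Finset.sum_nonneg fun i _ => hK i
    linarith, fun g θ h0 => ?_⟩
  have h1 : 1 ≤ 1 + ‖g‖ := by linarith [norm_nonneg g]
  set S : ℕ := ∑ i ∈ Finset.range Q.natDegree, m i with hS
  have hSK : 0 ≤ ∑ i ∈ Finset.range Q.natDegree, K i := Finset.sum_nonneg fun i _ => hK i
  have hone : 1 ≤ (1 + ‖g‖) ^ S := one_le_pow₀ h1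
  rcases le_or_gt ‖θ‖ 1 with hθ | hθ
  · nlinarith
  have h2 : ε g θ Q = ∑ i ∈ Finset.range (Q.natDegree + 1), aeval g (Q.coeff i) * θ ^ i := by
    conv_lhs => rw [Q.as_sum_range]
    rw [map_sum]
    exact Finset.sum_congr rfl fun i _ => ε_monomial _ _ _ _
  rw [h2, Finset.sum_range_succ, hQ.coeff_natDegree, map_one, one_mul] at h0
  have h3 : ‖θ‖ ^ Q.natDegree = ‖∑ i ∈ Finset.range Q.natDegree, aeval g (Q.coeff i) * θ ^ i‖ := by
    rw [← norm_pow, ← norm_neg (∑ i ∈ Finset.range Q.natDegree, aeval g (Q.coeff i) * θ ^ i)]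
    congr 1
    linear_combination h0
  have hd : Q.natDegree ≠ 0 := by
    intro hd
    rw [hd] at h3
    simp at h3
  obtain ⟨d, hd'⟩ := Nat.exists_eq_succ_of_ne_zero hd
  have h4 : ‖∑ i ∈ Finset.range Q.natDegree, aeval g (Q.coeff i) * θ ^ i‖ ≤
      (∑ i ∈ Finset.range Q.natDegree, K i) * (1 + ‖g‖) ^ S * ‖θ‖ ^ d := by
    refine (norm_sum_le _ _).trans ?_
    rw [Finset.sum_mul, Finset.sum_mul]
    refine Finset.sum_le_sum fun i hi => ?_
    rw [norm_mul, norm_pow]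
    have hi' : i ≤ d := by rw [Finset.mem_range] at hi; omega
    have e1 : (1 + ‖g‖) ^ m i ≤ (1 + ‖g‖) ^ S :=
      pow_le_pow_right₀ h1 (Finset.single_le_sum (f := m) (fun _ _ => Nat.zero_le _) hi)
    have e2 : ‖θ‖ ^ i ≤ ‖θ‖ ^ d := pow_le_pow_right₀ hθ.le hi'
    have e3 := h i g
    have e4 := hK i
    calc ‖aeval g (Q.coeff i)‖ * ‖θ‖ ^ i ≤ (K i * (1 + ‖g‖) ^ m i) * ‖θ‖ ^ i := by gcongr
      _ ≤ K i * (1 + ‖g‖) ^ S * ‖θ‖ ^ d := by gcongr
  rw [← h3, hd', Nat.succ_eq_add_one, pow_succ] at h4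
  have h5 : 0 < ‖θ‖ ^ d := by positivity
  rw [mul_comm] at h4
  have h6 := le_of_mul_le_mul_right (by linarith [h4] :
    ‖θ‖ * ‖θ‖ ^ d ≤ (∑ i ∈ Finset.range (d + 1), K i) * (1 + ‖g‖) ^ S * ‖θ‖ ^ d) h5
  rw [hd', Nat.succ_eq_add_one]
  refine h6.trans ?_
  have : (0 : ℝ) ≤ (1 + ‖g‖) ^ S := by positivity
  nlinarith

lemma bd2 (Q : C[X][X]) (hQ : Q.Monic) (N : C[X][X]) : ∃ (K : ℝ) (m : ℕ), 0 ≤ K ∧ ∀ g θ : ℂ,
    ε g θ Q = 0 → ‖ε g θ N‖ ≤ K * (1 + ‖g‖) ^ m := by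
  induction N using Polynomial.induction_on' with
  | add p q hp hq =>
    obtain ⟨K, m, hK, h⟩ := hp
    obtain ⟨K', m', hK', h'⟩ := hq
    refine ⟨K + K', m + m', by positivity, fun g θ hgθ => ?_⟩
    have h1 : 1 ≤ 1 + ‖g‖ := by linarith [norm_nonneg g]
    have e1 : (1 + ‖g‖) ^ m ≤ (1 + ‖g‖) ^ (m + m') := pow_le_pow_right₀ h1 (by omega)
    have e2 : (1 + ‖g‖) ^ m' ≤ (1 + ‖g‖) ^ (m + m') := pow_le_pow_right₀ h1 (by omega)
    rw [map_add]
    calc _ ≤ ‖ε g θ p‖ + ‖ε g θ q‖ := norm_add_le _ _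
      _ ≤ K * (1 + ‖g‖) ^ (m + m') + K' * (1 + ‖g‖) ^ (m + m') :=
        add_le_add ((h g θ hgθ).trans (by gcongr)) ((h' g θ hgθ).trans (by gcongr))
      _ = _ := by ring
  | monomial n a =>
    obtain ⟨K, m, hK, h⟩ := bd1 a
    obtain ⟨K', m', hK', h'⟩ := root_bd Q hQ
    refine ⟨K * K' ^ n, m + m' * n, by positivity, fun g θ hgθ => ?_⟩
    rw [ε_monomial, norm_mul, norm_pow]
    have e1 := h g
    have e2 := h' g θ hgθ
    calc ‖aeval g a‖ * ‖θ‖ ^ n ≤ (K * (1 + ‖g‖) ^ m) * (K' * (1 + ‖g‖) ^ m') ^ n := by gcongr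
      _ = _ := by rw [mul_pow, ← pow_mul, pow_add]; ring

end Pool.Agent.Y119.PG
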