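import Pool.Agent.H73.G.R8.Y119.IC.Imp
import Pool.Agent.H73.G.R8.Y119.PG.Biv
import Pool.Agent.H73.G.R8.Y119.PG.Prim
import Pool.Agent.H73.G.R8.Y119.UP.Germ
import Pool.Agent.H73.G.R8.Y685.Stm3

/-!
# Existence of specializations
-/

set_option autoImplicit false

open Polynomial Filter
open scoped Topology

namespace Pool.Agent.Y119.PG

/-- the data -/
structure Dat (C : IntermediateField ℚ ℂ) (g₀ : ℂ) where
  θ₀ : ℂ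
  Q : C[X][X]
  H₀ : C[X]
  Nδ : C[X][X]
  hQm : Q.Monic
  hQ0 : ε g₀ θ₀ Q = 0
  htr : ∀ R : C[X][X], ε g₀ θ₀ R = 0 → ∀ g θ, ε g θ Q = 0 → ε g θ R = 0
  hH : aeval g₀ H₀ ≠ 0
  hδ : ε g₀ θ₀ (derivative Q * Nδ) = aeval g₀ H₀

namespace Dat

variable {C : IntermediateField ℚ ℂ} {g₀ : ℂ} (d : Dat C g₀)

lemma sep {g θ : ℂ} (h : ε g θ d.Q = 0) (hH : aeval g d.H₀ ≠ 0) : ε g θ (derivative d.Q) ≠ 0 := by
  intro h0
  have h1 := d.htr (derivative d.Q * d.Nδ - Polynomial.C d.H₀) (by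
    rw [map_sub, d.hδ, ε_C, sub_self]) g θ h
  rw [map_sub, map_mul, h0, zero_mul, ε_C, zero_sub, neg_eq_zero] at h1
  exact hH h1

/-- the ring -/
def R : Subring ℂ where
  carrier := {x | ∃ (k : ℕ) (N : C[X][X]), x * (aeval g₀ d.H₀) ^ k = ε g₀ d.θ₀ N}
  mul_mem' := by
    rintro x y ⟨k, N, h⟩ ⟨l, N', h'⟩
    refine ⟨k + l, N * N', ?_⟩
    rw [map_mul, ← h, ← h', pow_add]; ring
  one_mem' := ⟨0, 1, by simp⟩
  add_mem' := by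
    rintro x y ⟨k, N, h⟩ ⟨l, N', h'⟩
    refine ⟨k + l, N * Polynomial.C d.H₀ ^ l + N' * Polynomial.C d.H₀ ^ k, ?_⟩
    rw [map_add, map_mul, map_mul, map_pow, map_pow, ε_C, ← h, ← h', pow_add]; ring
  zero_mem' := ⟨0, 0, by simp⟩
  neg_mem' := by
    rintro x ⟨k, N, h⟩
    refine ⟨k, -N, ?_⟩
    rw [map_neg, ← h]; ring

lemma ε_mem (N : C[X][X]) : ε g₀ d.θ₀ N ∈ d.R := ⟨0, N, by simp⟩

lemma aeval_mem (a : C[X]) : aeval g₀ a ∈ d.R := by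
  have := d.ε_mem (Polynomial.C a)
  rwa [ε_C] at this

lemma div_mem {x : ℂ} {k : ℕ} (h : x * (aeval g₀ d.H₀) ^ k ∈ d.R) : x ∈ d.R := by
  obtain ⟨l, N, hN⟩ := h
  exact ⟨k + l, N, by rw [← hN, pow_add]; ring⟩

lemma exists_rep (x : ℂ) : ∃ (k : ℕ) (N : C[X][X]), x ∈ d.R →
    x * (aeval g₀ d.H₀) ^ k = ε g₀ d.θ₀ N := by
  by_cases h : x ∈ d.R
  · obtain ⟨k, N, h'⟩ := h
    exact ⟨k, N, fun _ => h'⟩
  · exact ⟨0, 0, fun h' => absurd h' h⟩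

/-- the exponent -/
noncomputable def kx (x : ℂ) : ℕ := (d.exists_rep x).choose

/-- the numerator -/
noncomputable def Nx (x : ℂ) : C[X][X] := (d.exists_rep x).choose_spec.choose

lemma rep {x : ℂ} (hx : x ∈ d.R) : x * (aeval g₀ d.H₀) ^ (d.kx x) = ε g₀ d.θ₀ (d.Nx x) :=
  (d.exists_rep x).choose_spec.choose_spec hx

/-- the value -/
noncomputable def ev (g θ x : ℂ) : ℂ := ε g θ (d.Nx x) / (aeval g d.H₀) ^ (d.kx x)

lemma ev_eq {x : ℂ} (hx : x ∈ d.R) {k : ℕ} {N : C[X][X]}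
    (h : x * (aeval g₀ d.H₀) ^ k = ε g₀ d.θ₀ N) {g θ : ℂ} (hQ : ε g θ d.Q = 0)
    (hH : aeval g d.H₀ ≠ 0) : d.ev g θ x * (aeval g d.H₀) ^ k = ε g θ N := by
  have h1 := d.htr (d.Nx x * Polynomial.C d.H₀ ^ k - N * Polynomial.C d.H₀ ^ (d.kx x)) (by
    rw [map_sub, map_mul, map_mul, map_pow, map_pow, ε_C, ← d.rep hx, ← h]; ring) g θ hQ
  rw [map_sub, map_mul, map_mul, map_pow, map_pow, ε_C, sub_eq_zero] at h1
  unfold ev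
  have h2 : (aeval g d.H₀) ^ (d.kx x) ≠ 0 := pow_ne_zero _ hH
  rw [div_mul_eq_mul_div, h1, mul_div_assoc, div_self h2, mul_one]

lemma ev_eq' {x y : ℂ} (hx : x ∈ d.R) {k : ℕ} {N : C[X][X]}
    (h : x * (aeval g₀ d.H₀) ^ k = ε g₀ d.θ₀ N) {g θ : ℂ} (hQ : ε g θ d.Q = 0)
    (hH : aeval g d.H₀ ≠ 0) (hy : y * (aeval g d.H₀) ^ k = ε g θ N) : d.ev g θ x = y := by
  have h1 := d.ev_eq hx h hQ hH
  rw [← hy] at h1
  exact mul_right_cancel₀ (pow_ne_zero _ hH) h1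

lemma ev_add {g θ : ℂ} (hQ : ε g θ d.Q = 0) (hH : aeval g d.H₀ ≠ 0) {x y : ℂ} (hx : x ∈ d.R)
    (hy : y ∈ d.R) : d.ev g θ (x + y) = d.ev g θ x + d.ev g θ y := by
  refine d.ev_eq' (add_mem hx hy) (k := d.kx x + d.kx y)
    (N := d.Nx x * Polynomial.C d.H₀ ^ (d.kx y) + d.Nx y * Polynomial.C d.H₀ ^ (d.kx x)) ?_ hQ hH ?_
  · rw [map_add, map_mul, map_mul, map_pow, map_pow, ε_C, ← d.rep hx, ← d.rep hy, pow_add]; ring
  · rw [map_add, map_mul, map_mul, map_pow, map_pow, ε_C, ← d.ev_eq hx (d.rep hx) hQ hH,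
      ← d.ev_eq hy (d.rep hy) hQ hH, pow_add]; ring

lemma ev_mul {g θ : ℂ} (hQ : ε g θ d.Q = 0) (hH : aeval g d.H₀ ≠ 0) {x y : ℂ} (hx : x ∈ d.R)
    (hy : y ∈ d.R) : d.ev g θ (x * y) = d.ev g θ x * d.ev g θ y := by
  refine d.ev_eq' (mul_mem hx hy) (k := d.kx x + d.kx y) (N := d.Nx x * d.Nx y) ?_ hQ hH ?_
  · rw [map_mul, ← d.rep hx, ← d.rep hy, pow_add]; ring
  · rw [map_mul, ← d.ev_eq hx (d.rep hx) hQ hH, ← d.ev_eq hy (d.rep hy) hQ hH, pow_add]; ring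

lemma ev_ε {g θ : ℂ} (hQ : ε g θ d.Q = 0) (hH : aeval g d.H₀ ≠ 0) (N : C[X][X]) :
    d.ev g θ (ε g₀ d.θ₀ N) = ε g θ N :=
  d.ev_eq' (d.ε_mem N) (k := 0) (N := N) (by simp) hQ hH (by simp)

lemma ev_aeval {g θ : ℂ} (hQ : ε g θ d.Q = 0) (hH : aeval g d.H₀ ≠ 0) (a : C[X]) :
    d.ev g θ (aeval g₀ a) = aeval g a := by
  have := d.ev_ε hQ hH (Polynomial.C a)
  rwa [ε_C, ε_C] at this

section der

variable {D : Derivation ℚ ℂ ℂ} {E : C[X]} (hDC : ∀ c ∈ C, D c = 0) (hDg : D g₀ = aeval g₀ E)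

include hDC hDg

lemma Dθ_mem : D d.θ₀ ∈ d.R := by
  obtain ⟨Q', h1, _⟩ := exists_NX d.Q
  have h2 := h1 D hDC g₀ d.θ₀
  rw [d.hQ0, map_zero, hDg] at h2
  apply d.div_mem (k := 1)
  rw [pow_one, ← d.hδ, map_mul]
  have h3 : D d.θ₀ * (ε g₀ d.θ₀ (derivative d.Q) * ε g₀ d.θ₀ d.Nδ) =
      -(ε g₀ d.θ₀ Q' * aeval g₀ E * ε g₀ d.θ₀ d.Nδ) := by
    linear_combination -(ε g₀ d.θ₀ d.Nδ) * h2
  rw [h3]
  exact neg_mem (mul_mem (mul_mem (d.ε_mem _) (d.aeval_mem _)) (d.ε_mem _))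

lemma D_mem {x : ℂ} (hx : x ∈ d.R) : D x ∈ d.R := by
  obtain ⟨k, N, h⟩ := hx
  obtain ⟨N', h1, _⟩ := exists_NX N
  have h2 := congrArg D h
  rw [h1 D hDC g₀ d.θ₀, hDg, D.leibniz, D.leibniz_pow, der_aeval D hDC, hDg] at h2
  simp only [smul_eq_mul, nsmul_eq_mul] at h2
  apply d.div_mem (k := k)
  have h3 : D x * (aeval g₀ d.H₀) ^ k = ε g₀ d.θ₀ N' * aeval g₀ E +
      ε g₀ d.θ₀ (derivative N) * D d.θ₀ -
      x * ((k : ℂ) * ((aeval g₀ d.H₀) ^ (k - 1) * (aeval g₀ (derivative d.H₀) * aeval g₀ E))) := by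
    linear_combination h2
  rw [h3]
  have hx : x ∈ d.R := ⟨k, N, h⟩
  refine sub_mem (add_mem (mul_mem (d.ε_mem _) (d.aeval_mem _))
    (mul_mem (d.ε_mem _) (d.Dθ_mem hDC hDg))) (mul_mem hx (mul_mem (natCast_mem _ _)
    (mul_mem (pow_mem (d.aeval_mem _) _) (mul_mem (d.aeval_mem _) (d.aeval_mem _)))))

/-- the value of the derivative of `θ₀` -/
lemma ev_Dθ {g θ : ℂ} (hQ : ε g θ d.Q = 0) (hH : aeval g d.H₀ ≠ 0) {Q' : C[X][X]}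
    (h1 : ∀ g θ : ℂ, D (ε g θ d.Q) = ε g θ Q' * D g + ε g θ (derivative d.Q) * D θ) :
    ε g θ Q' * aeval g E + ε g θ (derivative d.Q) * d.ev g θ (D d.θ₀) = 0 := by
  have h2 := h1 g₀ d.θ₀
  rw [d.hQ0, map_zero, hDg] at h2
  have h3 := congrArg (d.ev g θ) h2
  rw [d.ev_add hQ hH (mul_mem (d.ε_mem _) (d.aeval_mem _))
    (mul_mem (d.ε_mem _) (d.Dθ_mem hDC hDg)), d.ev_mul hQ hH (d.ε_mem _) (d.aeval_mem _),
    d.ev_mul hQ hH (d.ε_mem _) (d.Dθ_mem hDC hDg), d.ev_ε hQ hH, d.ev_ε hQ hH,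
    d.ev_aeval hQ hH] at h3
  rw [← h3]
  have h4 : (0 : ℂ) = aeval g₀ (0 : C[X]) := by simp
  rw [h4, d.ev_aeval hQ hH]
  simp

lemma ev_D {g θ : ℂ} (hQ : ε g θ d.Q = 0) (hH : aeval g d.H₀ ≠ 0) {x : ℂ} (hx : x ∈ d.R)
    {N' : C[X][X]} (h1 : ∀ g θ : ℂ,
      D (ε g θ (d.Nx x)) = ε g θ N' * D g + ε g θ (derivative (d.Nx x)) * D θ) :
    d.ev g θ (D x) * (aeval g d.H₀) ^ (d.kx x) + d.ev g θ x * ((d.kx x : ℂ) *
      ((aeval g d.H₀) ^ (d.kx x - 1) * (aeval g (derivative d.H₀) * aeval g E))) =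
    ε g θ N' * aeval g E + ε g θ (derivative (d.Nx x)) * d.ev g θ (D d.θ₀) := by
  have h2 := congrArg D (d.rep hx)
  rw [h1 g₀ d.θ₀, hDg, D.leibniz, D.leibniz_pow, der_aeval D hDC, hDg] at h2
  simp only [smul_eq_mul, nsmul_eq_mul] at h2
  set k := d.kx x with hk
  have h3 : D x * (aeval g₀ d.H₀) ^ k + x * ε g₀ d.θ₀ (Polynomial.C ((k : C[X]) *
      (d.H₀ ^ (k - 1) * (derivative d.H₀ * E)))) = ε g₀ d.θ₀ (N' * Polynomial.C E) +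
      ε g₀ d.θ₀ (derivative (d.Nx x)) * D d.θ₀ := by
    simp only [ε_C, map_mul, map_pow, map_natCast]
    linear_combination h2
  have hDx := d.D_mem hDC hDg hx
  have hDθ := d.Dθ_mem hDC hDg
  have h4 := congrArg (d.ev g θ) h3
  rw [d.ev_add hQ hH (mul_mem hDx (pow_mem (d.aeval_mem _) _)) (mul_mem hx (d.ε_mem _)),
    d.ev_add hQ hH (d.ε_mem _) (mul_mem (d.ε_mem _) hDθ),
    d.ev_mul hQ hH hDx (pow_mem (d.aeval_mem _) _), d.ev_mul hQ hH hx (d.ε_mem _),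
    d.ev_mul hQ hH (d.ε_mem _) hDθ, d.ev_ε hQ hH, d.ev_ε hQ hH, d.ev_ε hQ hH,
    ← map_pow (aeval g₀), d.ev_aeval hQ hH] at h4
  simp only [ε_C, map_mul, map_pow, map_natCast] at h4
  linear_combination h4

end der

end Dat

end Pool.Agent.Y119.PG
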