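import Pool.Agent.H73.G.R8.Y119.PG.Plc

/-!
# Existence of specializations: branches, derivatives, growth, assembly
-/

set_option autoImplicit false

open Polynomial Filter
open scoped Topology

namespace Pool.Agent.Y119.PG

namespace Dat

variable {C : IntermediateField ℚ ℂ} {g₀ : ℂ} (d : Dat C g₀)

/-- the polynomial over `g` -/
noncomputable def Qg (g : ℂ) : ℂ[X] := d.Q.map ((aeval g : C[X] →ₐ[C] ℂ) : C[X] →+* ℂ)

lemma eval_Qg (g θ : ℂ) : (d.Qg g).eval θ = ε g θ d.Q := by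
  rw [Qg, eval_map]; rfl

lemma eval_dQg (g θ : ℂ) : (derivative (d.Qg g)).eval θ = ε g θ (derivative d.Q) := by
  rw [Qg, derivative_map, eval_map]; rfl

lemma Qg_monic (g : ℂ) : (d.Qg g).Monic := d.hQm.map _

lemma Qg_deg (g : ℂ) : (d.Qg g).natDegree = d.Q.natDegree := d.hQm.natDegree_map _

/-- the roots -/
def Rt (g : ℂ) : Set ℂ := {θ | ε g θ d.Q = 0}

lemma Rt_eq (g : ℂ) : d.Rt g = ((d.Qg g).roots.toFinset : Set ℂ) := by
  ext θ
  rw [Rt, Set.mem_ofPred_eq, Finset.mem_coe, Multiset.mem_toFinset,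
    mem_roots (d.Qg_monic g).ne_zero, IsRoot, d.eval_Qg]

lemma card_le (g : ℂ) : (d.Qg g).roots.toFinset.card ≤ d.Q.natDegree := by
  refine (Multiset.toFinset_card_le _).trans ?_
  rw [← d.Qg_deg g]
  exact card_roots' _

lemma card_eq {g : ℂ} (hH : aeval g d.H₀ ≠ 0) :
    (d.Qg g).roots.toFinset.card = d.Q.natDegree := by
  have hnd : (d.Qg g).roots.Nodup := by
    rw [Multiset.nodup_iff_count_le_one]
    intro θ
    rw [count_roots]
    by_contra hcon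
    push Not at hcon
    have h0 : (d.Qg g).IsRoot θ ∧ (derivative (d.Qg g)).IsRoot θ :=
      (one_lt_rootMultiplicity_iff_isRoot (d.Qg_monic g).ne_zero).1 hcon
    have h1 : ε g θ d.Q = 0 := by rw [← d.eval_Qg]; exact h0.1
    exact d.sep h1 hH (by rw [← d.eval_dQg]; exact h0.2)
  rw [Multiset.toFinset_card_of_nodup hnd, ← d.Qg_deg g]
  exact (splits_iff_card_roots.1 (IsAlgClosed.splits (d.Qg g)))

theorem branches (g : ℂ → ℂ) (t₁ : ℂ) (hg : AnalyticAt ℂ g t₁) (hH : aeval (g t₁) d.H₀ ≠ 0) :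
    ∃ φ : Fin d.Q.natDegree → ℂ → ℂ, (∀ i, AnalyticAt ℂ (φ i) t₁) ∧ ∀ᶠ t in 𝓝 t₁,
      Function.Injective (fun i => φ i t) ∧ d.Rt (g t) = Set.range (fun i => φ i t) := by
  classical
  let e : Fin d.Q.natDegree ≃ (d.Qg (g t₁)).roots.toFinset :=
    ((Finset.equivFinOfCardEq (d.card_eq hH)).symm)
  have hroot : ∀ i, ε (g t₁) (e i : ℂ) d.Q = 0 := by
    intro i
    have h1 : (e i : ℂ) ∈ ((d.Qg (g t₁)).roots.toFinset : Set ℂ) := (e i).2
    rw [← d.Rt_eq] at h1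
    exact h1
  choose ψ hψ1 hψ2 hψ3 hψ4 using fun i =>
    Pool.Agent.Y119.IC.task_I (fun g θ => ε g θ d.Q) (g t₁, (e i : ℂ)) (ε_SH d.Q _) (hroot i)
      (by
        simp only
        rw [ε_deriv2]
        exact d.sep (hroot i) hH)
  simp only at hψ1 hψ2 hψ3
  have hφan : ∀ i, AnalyticAt ℂ (fun t => ψ i (g t)) t₁ := fun i => (hψ2 i).comp hg
  refine ⟨fun i t => ψ i (g t), hφan, ?_⟩
  have h1 : ∀ᶠ t in 𝓝 t₁, ∀ i, ε (g t) (ψ i (g t)) d.Q = 0 :=
    eventually_all.2 fun i => hg.continuousAt.eventually (hψ3 i)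
  have h2 : ∀ᶠ t in 𝓝 t₁, ∀ i j, i ≠ j → ψ i (g t) ≠ ψ j (g t) := by
    refine eventually_all.2 fun i => eventually_all.2 fun j => ?_
    by_cases hij : i = j
    · exact Eventually.of_forall fun t h => absurd hij h
    · have hne : ψ i (g t₁) - ψ j (g t₁) ≠ 0 := by
        rw [hψ1, hψ1, sub_ne_zero]
        intro h
        exact hij (e.injective (Subtype.ext h))
      have h3 := ((hφan i).continuousAt.sub (hφan j).continuousAt).eventually_ne hne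
      filter_upwards [h3] with t ht _
      exact sub_ne_zero.1 ht
  filter_upwards [h1, h2] with t ht1 ht2
  have hinj : Function.Injective fun i => ψ i (g t) := by
    intro i j hij
    by_contra hne
    exact ht2 i j hne hij
  refine ⟨hinj, ?_⟩
  have hsub : Finset.univ.image (fun i => ψ i (g t)) ⊆ (d.Qg (g t)).roots.toFinset := by
    intro θ hθ
    rw [Finset.mem_image] at hθ
    obtain ⟨i, _, rfl⟩ := hθ
    have h3 : ψ i (g t) ∈ d.Rt (g t) := ht1 i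
    rw [d.Rt_eq] at h3
    exact h3
  have hcard : (d.Qg (g t)).roots.toFinset.card ≤ (Finset.univ.image (fun i => ψ i (g t))).card := by
    rw [Finset.card_image_of_injective _ hinj, Finset.card_fin]
    exact d.card_le _
  have heq := Finset.eq_of_subset_of_card_le hsub hcard
  rw [d.Rt_eq, ← heq]
  simp

lemma ev_an {g φ : ℂ → ℂ} {t₁ : ℂ} (hg : AnalyticAt ℂ g t₁) (hφ : AnalyticAt ℂ φ t₁)
    (hH : aeval (g t₁) d.H₀ ≠ 0) (x : ℂ) : AnalyticAt ℂ (fun t => d.ev (g t) (φ t) x) t₁ := by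
  unfold ev
  refine (ε_an hg hφ _).div ?_ (pow_ne_zero _ hH)
  refine AnalyticAt.pow ?_ _
  have h1 := ε_an hg hφ (Polynomial.C d.H₀)
  simpa only [ε_C] using h1

theorem ev_der {D : Derivation ℚ ℂ ℂ} {E : C[X]} (hDC : ∀ c ∈ C, D c = 0)
    (hDg : D g₀ = aeval g₀ E) {g φ : ℂ → ℂ} {t₁ b : ℂ} (hg : AnalyticAt ℂ g t₁)
    (hφ : AnalyticAt ℂ φ t₁) (hH : aeval (g t₁) d.H₀ ≠ 0)
    (hQ : ∀ᶠ t in 𝓝 t₁, ε (g t) (φ t) d.Q = 0) (hb : deriv g t₁ = b * aeval (g t₁) E)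
    {x : ℂ} (hx : x ∈ d.R) :
    deriv (fun t => d.ev (g t) (φ t) x) t₁ = b * d.ev (g t₁) (φ t₁) (D x) := by
  have hQ1 := hQ.self_of_nhds
  obtain ⟨Q', hQ'1, hQ'2⟩ := exists_NX d.Q
  obtain ⟨N', hN'1, hN'2⟩ := exists_NX (d.Nx x)
  have hgd := hg.differentiableAt.hasDerivAt
  have hφd := hφ.differentiableAt.hasDerivAt
  -- derivative of `φ`
  have h1 := hQ'2 g φ t₁ _ _ hgd hφd
  have h2 : HasDerivAt (fun t => ε (g t) (φ t) d.Q) 0 t₁ :=
    (hasDerivAt_const t₁ (0 : ℂ)).congr_of_eventuallyEq hQ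
  have h3 := h1.unique h2
  have h4 := d.ev_Dθ hDC hDg hQ1 hH (hQ'1 D hDC)
  have hφ' : deriv φ t₁ = b * d.ev (g t₁) (φ t₁) (D d.θ₀) := by
    apply mul_left_cancel₀ (d.sep hQ1 hH)
    rw [hb] at h3
    linear_combination h3 - b * h4
  -- derivative of the value
  have h5 := (d.ev_an hg hφ hH x).differentiableAt.hasDerivAt
  have h6 := hasDeriv_aeval hgd d.H₀
  have h7 := h5.mul (h6.pow (d.kx x))
  have hHc : ∀ᶠ t in 𝓝 t₁, aeval (g t) d.H₀ ≠ 0 := h6.continuousAt.eventually_ne hH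
  have h8 : (fun t => ε (g t) (φ t) (d.Nx x)) =ᶠ[𝓝 t₁]
      fun t => d.ev (g t) (φ t) x * (aeval (g t) d.H₀) ^ (d.kx x) := by
    filter_upwards [hQ, hHc] with t ht1 ht2
    exact (d.ev_eq hx (d.rep hx) ht1 ht2).symm
  have h9 := (h7.congr_of_eventuallyEq h8).unique (hN'2 g φ t₁ _ _ hgd hφd)
  have h10 := d.ev_D hDC hDg hQ1 hH hx (hN'1 D hDC)
  apply mul_right_cancel₀ (pow_ne_zero (d.kx x) hH)
  rw [hb, hφ'] at h9
  simp only [Pi.pow_apply] at h9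
  linear_combination h9 - b * h10

theorem growth (x : ℂ) : ∃ (K : ℝ) (m : ℕ), ∀ g, aeval g d.H₀ ≠ 0 → ∀ θ, ε g θ d.Q = 0 →
    ‖d.ev g θ x‖ ≤ K * ((1 + ‖g‖) / ‖(aeval g d.H₀ : ℂ)‖ + (1 + ‖g‖)) ^ m := by
  obtain ⟨K, m, hK, h⟩ := bd2 d.Q d.hQm (d.Nx x)
  refine ⟨K, m + d.kx x, fun g hH θ hQ => ?_⟩
  have h1 := h g θ hQ
  have hpos : 0 < ‖(aeval g d.H₀ : ℂ)‖ := norm_pos_iff.2 hH
  have hg : 1 ≤ 1 + ‖g‖ := by linarith [norm_nonneg g]
  unfold ev
  rw [norm_div, norm_pow, pow_add]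
  set B : ℝ := (1 + ‖g‖) / ‖(aeval g d.H₀ : ℂ)‖ + (1 + ‖g‖) with hB
  have hB1 : 1 + ‖g‖ ≤ B := by
    rw [hB]
    have : 0 ≤ (1 + ‖g‖) / ‖(aeval g d.H₀ : ℂ)‖ := by positivity
    linarith
  have hB2 : ‖(aeval g d.H₀ : ℂ)‖⁻¹ ≤ B := by
    rw [hB]
    have h2 : ‖(aeval g d.H₀ : ℂ)‖⁻¹ ≤ (1 + ‖g‖) / ‖(aeval g d.H₀ : ℂ)‖ := by
      rw [div_eq_mul_inv]
      exact le_mul_of_one_le_left (by positivity) hg
    linarith
  calc ‖ε g θ (d.Nx x)‖ / ‖(aeval g d.H₀ : ℂ)‖ ^ d.kx x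
      = ‖ε g θ (d.Nx x)‖ * (‖(aeval g d.H₀ : ℂ)‖⁻¹) ^ d.kx x := by rw [inv_pow, div_eq_mul_inv]
    _ ≤ (K * (1 + ‖g‖) ^ m) * (‖(aeval g d.H₀ : ℂ)‖⁻¹) ^ d.kx x := by gcongr
    _ ≤ (K * B ^ m) * B ^ d.kx x := by gcongr
    _ = _ := by ring

end Dat

theorem alg_poly {C : IntermediateField ℚ ℂ} {g₀ : ℂ} (hg₀ : Transcendental C g₀) {z : ℂ}
    (hz : IsAlgebraic (IntermediateField.adjoin C {g₀}) z) :
    ∃ N : C[X][X], N ≠ 0 ∧ ε g₀ z N = 0 := by
  rw [Pool.Agent.Y119.UP.alg_iff hg₀] at hz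
  obtain ⟨P, hP0, hP⟩ := hz
  let f : MvPolynomial (Fin 2) C →+* C[X][X] :=
    MvPolynomial.eval₂Hom (Polynomial.C.comp Polynomial.C) ![Polynomial.C X, X]
  let r : C[X][X] →+* MvPolynomial (Fin 2) C :=
    eval₂RingHom ((aeval (MvPolynomial.X 0) : C[X] →ₐ[C] MvPolynomial (Fin 2) C) :
      C[X] →+* MvPolynomial (Fin 2) C) (MvPolynomial.X 1)
  have hrf : r.comp f = RingHom.id _ := by
    apply MvPolynomial.ringHom_ext
    · intro c
      simp [f, r, MvPolynomial.algebraMap_eq]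
    · intro i
      fin_cases i <;> simp [f, r]
  have hf : ∀ g θ : ℂ, ∀ P : MvPolynomial (Fin 2) C, ε g θ (f P) = MvPolynomial.aeval ![g, θ] P := by
    intro g θ P
    have h1 : (ε g θ).comp f = ((MvPolynomial.aeval ![g, θ] : MvPolynomial (Fin 2) C →ₐ[C] ℂ) :
        MvPolynomial (Fin 2) C →+* ℂ) := by
      apply MvPolynomial.ringHom_ext
      · intro c
        simp [f, ε_C]
      · intro i
        fin_cases i <;> simp [f, ε_C, ε_X]
    exact congrArg (fun φ : MvPolynomial (Fin 2) C →+* ℂ => φ P) h1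
  refine ⟨f P, fun h => hP0 ?_, by rw [hf]; exact hP⟩
  have h2 := congrArg (fun φ : MvPolynomial (Fin 2) C →+* MvPolynomial (Fin 2) C => φ P) hrf
  simp only [RingHom.comp_apply, RingHom.id_apply] at h2
  rw [← h2, h, map_zero]

theorem exists_dat {C : IntermediateField ℚ ℂ} {g₀ : ℂ} (hg₀ : Transcendental C g₀) (Z : Set ℂ)
    (hZ : Z.Finite) (halg : ∀ z ∈ Z, IsAlgebraic (IntermediateField.adjoin C {g₀}) z) :
    ∃ d : Dat C g₀, Z ⊆ d.R := by
  classical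
  let _ : Algebra C[X] ℂ := ((aeval g₀ : C[X] →ₐ[C] ℂ) : C[X] →+* ℂ).toAlgebra
  have hmap : ∀ a : C[X], algebraMap C[X] ℂ a = aeval g₀ a := fun a => rfl
  have hinj : Function.Injective (algebraMap C[X] ℂ) := transcendental_iff_injective.1 hg₀
  have : FaithfulSMul C[X] ℂ := (faithfulSMul_iff_algebraMap_injective _ _).2 hinj
  have hε : ∀ (θ : ℂ) (N : C[X][X]), aeval θ N = ε g₀ θ N := fun θ N => rfl
  have halgA : ∀ z ∈ Z, IsAlgebraic C[X] z := by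
    intro z hz
    obtain ⟨N, hN0, hN⟩ := alg_poly hg₀ (halg z hz)
    exact ⟨N, hN0, by rw [hε]; exact hN⟩
  obtain ⟨θ₀, hint, hZrep, hinv⟩ := prim Z hZ halgA
  set Q := minpoly C[X] θ₀ with hQ
  have hQm : Q.Monic := minpoly.monic hint
  have hQ0 : ε g₀ θ₀ Q = 0 := by rw [← hε]; exact minpoly.aeval _ _
  have hdvd : ∀ R : C[X][X], ε g₀ θ₀ R = 0 → Q ∣ R := fun R hR =>
    minpoly.isIntegrallyClosed_dvd hint (by rw [hε]; exact hR)
  have htr : ∀ R : C[X][X], ε g₀ θ₀ R = 0 → ∀ g θ, ε g θ Q = 0 → ε g θ R = 0 := by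
    intro R hR g θ h
    obtain ⟨S, hS⟩ := hdvd R hR
    rw [hS, map_mul, h, zero_mul]
  have hQ' : ε g₀ θ₀ (derivative Q) ≠ 0 := by
    intro h0
    have h1 := hdvd _ h0
    have h2 : derivative Q = 0 := by
      by_contra hne
      have h3 := natDegree_le_of_dvd h1 hne
      have h4 : Q.natDegree ≠ 0 := by
        intro h5
        rw [natDegree_eq_zero.1 h5 |>.choose_spec.symm] at hne
        simp at hne
      have h6 := natDegree_derivative_lt h4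
      omega
    have h3 := derivative_eq_zero.1 h2
    have h4 : Q = 1 := by
      rw [← hQm.natDegree_eq_zero]
      exact h3
    rw [h4, map_one] at hQ0
    exact one_ne_zero hQ0
  obtain ⟨hd, hd0, Nδ, hNδ⟩ := hinv (derivative Q) (by rw [hε]; exact hQ')
  have hrep : ∀ z, ∃ b : C[X], b ≠ 0 ∧ ∃ N : C[X][X], z ∈ Z → aeval g₀ b * z = ε g₀ θ₀ N := by
    intro z
    by_cases hz : z ∈ Z
    · obtain ⟨b, hb, N, hN⟩ := hZrep z hz
      exact ⟨b, hb, N, fun _ => hN⟩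
    · exact ⟨1, one_ne_zero, 0, fun h => absurd h hz⟩
  choose b hb N hN using hrep
  set H₀ : C[X] := hd * ∏ z ∈ hZ.toFinset, b z with hH₀
  have hH0 : H₀ ≠ 0 := mul_ne_zero hd0 (Finset.prod_ne_zero_iff.2 fun z _ => hb z)
  have hHg : aeval g₀ H₀ ≠ 0 := by
    rw [← hmap, Ne, map_eq_zero_iff _ hinj]; exact hH0
  refine ⟨⟨θ₀, Q, H₀, Nδ * Polynomial.C (∏ z ∈ hZ.toFinset, b z), hQm, hQ0, htr, hHg, ?_⟩, ?_⟩
  · rw [map_mul, map_mul, ε_C, ← mul_assoc, ← hε θ₀ (derivative Q), ← hε θ₀ Nδ, ← hNδ, hmap,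
      hH₀, map_mul]
  · intro z hz
    refine ⟨1, N z * Polynomial.C (hd * ∏ w ∈ hZ.toFinset.erase z, b w), ?_⟩
    have h1 : H₀ = b z * (hd * ∏ w ∈ hZ.toFinset.erase z, b w) := by
      rw [hH₀, ← Finset.mul_prod_erase hZ.toFinset b (hZ.mem_toFinset.2 hz)]
      ring
    simp only
    rw [pow_one, h1, map_mul (aeval g₀), map_mul (ε g₀ θ₀), ε_C, ← hN z hz]
    ring

theorem task_P : Pool.Agent.Y685.S_P := by
  intro C g₀ D E Z hg₀ hDC hDg hZ halg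
  obtain ⟨d, hZR⟩ := exists_dat hg₀ Z hZ halg
  have hHe : ∀ g, (d.H₀.map (algebraMap C ℂ)).eval g = aeval g d.H₀ := fun g =>
    eval_map_algebraMap _ _
  have hHe' : ∀ {g}, (d.H₀.map (algebraMap C ℂ)).eval g ≠ 0 → aeval g d.H₀ ≠ 0 := fun {g} h => by
    rwa [hHe] at h
  refine ⟨{
    d := d.Q.natDegree
    Rt := d.Rt
    H := d.H₀.map (algebraMap C ℂ)
    θ₀ := d.θ₀
    R := d.R
    ev := d.ev
    H0 := by rw [hHe]; exact d.hH
    hθ₀ := d.hQ0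
    hZ := hZR
    hC := fun c hc => by
      have := d.aeval_mem (Polynomial.C (⟨c, hc⟩ : C))
      simpa using this
    hg := by
      have := d.aeval_mem X
      simpa using this
    hD := fun x hx => d.D_mem hDC hDg hx
    hadd := fun g hg θ hθ x hx y hy => d.ev_add hθ (hHe' hg) hx hy
    hmul := fun g hg θ hθ x hx y hy => d.ev_mul hθ (hHe' hg) hx hy
    hc := fun g hg θ hθ c hc => by
      have := d.ev_aeval hθ (hHe' hg) (Polynomial.C (⟨c, hc⟩ : C))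
      simpa using this
    hg₀ := fun g hg θ hθ => by
      have := d.ev_aeval hθ (hHe' hg) X
      simpa using this
    hid := fun x hx => d.ev_eq' hx (d.rep hx) d.hQ0 d.hH (d.rep hx)
    hbr := fun g t₁ hg hH => d.branches g t₁ hg (hHe' hH)
    han := fun g φ t₁ hg hφ hH _ x _ => d.ev_an hg hφ (hHe' hH) x
    hder := fun g φ t₁ b hg hφ hH hQ hb x hx => d.ev_der hDC hDg hg hφ (hHe' hH) hQ hb hx
    hbd := fun x _ => by
      obtain ⟨K, m, h⟩ := d.growth x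
      refine ⟨K, m, fun g hg θ hθ => ?_⟩
      rw [hHe]
      exact h g (hHe' hg) θ hθ }⟩

end Pool.Agent.Y119.PG
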